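import Pool.Agent.R924.K11

set_option autoImplicit false

/-!
Q1 of MP_342ba6_al is true: in an acyclic complex of `A/R`-flaprojective modules with flat modules
of cocycles, the modules of cocycles are `A/R`-flaprojective.
-/

universe u

namespace Pool.Agent.Results.MP_342ba6_al.FlaprojectivePeriodicity

open CategoryTheory Abelian

/-- Flat left modules over an arbitrary ring, by the equational criterion: every linear relation
`∑ rᵢ xᵢ = 0` in `F` is a consequence of linear relations in `S`. -/
def IsFlat (S : Type u) [Ring S] (F : Type u) [AddCommGroup F] [Module S F] : Prop :=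
  ∀ (n : ℕ) (r : Fin n → S) (x : Fin n → F), ∑ i, r i • x i = 0 →
    ∃ (k : ℕ) (a : Fin n → Fin k → S) (y : Fin k → F),
      (∀ i, x i = ∑ j, a i j • y j) ∧ ∀ j, ∑ i, r i * a i j = 0

/-- Cotorsion left modules: `Ext¹(G, C) = 0` for every flat left module `G`. -/
def IsCotorsion (R : Type u) [Ring R] (C : ModuleCat.{u} R) : Prop :=
  ∀ G : ModuleCat.{u} R, IsFlat R G → ∀ e : Ext G C 1, e = 0

/-- `A/R`-flaprojective left `A`-modules: `Ext¹_A(F, C) = 0` for every left `A`-module `C` whose
underlying `R`-module is cotorsion. -/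
def IsFlaprojective {R A : Type u} [Ring R] [Ring A] (f : R →+* A) (F : ModuleCat.{u} A) : Prop :=
  ∀ C : ModuleCat.{u} A, IsCotorsion R ((ModuleCat.restrictScalars f).obj C) →
    ∀ e : Ext F C 1, e = 0

/-- The module of cocycles `Zⁿ = ker (dⁿ : Fⁿ → Fⁿ⁺¹)`. -/
abbrev cocycles {A : Type u} [Ring A] (F : CochainComplex (ModuleCat.{u} A) ℤ) (n : ℤ) :
    ModuleCat.{u} A := ModuleCat.of A (LinearMap.ker (F.d n (n + 1)).hom)

theorem result :
    ∀ (R A : Type u) [Ring R] [Ring A] (f : R →+* A) (F : CochainComplex (ModuleCat.{u} A) ℤ),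
      F.Acyclic → (∀ n, IsFlaprojective f (F.X n)) → (∀ n, IsFlat A (cocycles F n)) →
        ∀ n, IsFlaprojective f (cocycles F n) := by
  intro R A _ _ f F hac hfp hfl
  have hex : ∀ n, Function.Exact (F.d n (n + 1)).hom (F.d (n + 1) (n + 1 + 1)).hom := by
    intro n
    have h1 := (HomologicalComplex.exactAt_iff' F n (n + 1) (n + 1 + 1)
      (by simp) (by simp)).1 (hac (n + 1))
    exact (ShortComplex.ShortExact.moduleCat_exact_iff_function_exact _).1 h1
  exact Pool.Agent.R924.Fla.periodicity f (fun n => (F.d n (n + 1)).hom) hex hfp hfl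

end Pool.Agent.Results.MP_342ba6_al.FlaprojectivePeriodicity
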